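import Pool.Agent.W_7d29a1_G.FR0
import Pool.Agent.W_7d29a1_f21.Ind

/-!
STORM X (MP_7d29a1_pr, `d = 1`, power superconcentration), section (ES): the Jensen reduction. One sided difference of
`V_N` under the resampling of the slab of the rows `(a, a + m]`, in terms of the costs of the slab at the place of the
polymer: `F - F' ≤ ∑ ν (X' - X)`, and its square, integrated: the costs `X'` of the resampled slab are independent of
the Gibbs law `ν` of the entrance and the exit.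
-/

namespace Pool.Agent.W_7d29a1_X50

open MeasureTheory ProbabilityTheory Filter Topology
open Pool.Agent.W_7d29a1_F

noncomputable section

/-- Entrance `q.1` (row `a`) and displacement `q.2` in the slab (time `m`). -/
def Pr (a m : ℕ) : Finset (ℤ × ℤ) := Finset.Icc (0 : ℤ) a ×ˢ Finset.Icc (0 : ℤ) m

/-- The weight outside the slab. -/
def Aw (μ : Measure ℝ) (s : ℝ) (η : Env) (a m k : ℕ) (q : ℤ × ℤ) : ℝ :=
  W μ s η 0 a q.1 * Real.exp (V μ s η ((a : ℤ) + m, q.1 + q.2) k)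

/-- The Gibbs law of the entrance and the displacement. -/
def Gn (μ : Measure ℝ) (s : ℝ) (η : Env) (a m k : ℕ) (q : ℤ × ℤ) : ℝ :=
  Aw μ s η a m k q * W μ s η ((a : ℤ), q.1) m q.2 / Real.exp (V μ s η 0 (a + m + k))

/-- The second moment of the positive part of the cost. -/
def hh (μ : Measure ℝ) (s : ℝ) (m : ℕ) (y : ℤ) : ℝ := ∫ η, (max (X μ s η 0 m y) 0) ^ 2 ∂(law μ)

variable {μ : Measure ℝ} {s : ℝ}

theorem mem_Pr {a m : ℕ} {q : ℤ × ℤ} : q ∈ Pr a m ↔ (0 ≤ q.1 ∧ q.1 ≤ a) ∧ (0 ≤ q.2 ∧ q.2 ≤ m) := by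
  unfold Pr
  rw [Finset.mem_product, Finset.mem_Icc, Finset.mem_Icc]

theorem exp_slab (η : Env) (a m k : ℕ) :
    Real.exp (V μ s η 0 (a + m + k)) = ∑ q ∈ Pr a m, Aw μ s η a m k q * W μ s η ((a : ℤ), q.1) m q.2 := by
  rw [add_assoc, exp_V_add η 0 a (m + k)]
  unfold Pr
  rw [Finset.sum_product]
  refine Finset.sum_congr rfl fun x _ => ?_
  have h1 : ((0 : Pt).1 + (a : ℤ), (0 : Pt).2 + x) = ((a : ℤ), x) := by simp
  rw [h1, exp_V_add, Finset.mul_sum]
  refine Finset.sum_congr rfl fun y _ => ?_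
  unfold Aw
  ring

theorem Aw_nonneg (η : Env) (a m k : ℕ) (q : ℤ × ℤ) : 0 ≤ Aw μ s η a m k q :=
  mul_nonneg (W_nonneg _ _ _ _) (Real.exp_pos _).le

theorem Gn_nonneg (η : Env) (a m k : ℕ) (q : ℤ × ℤ) : 0 ≤ Gn μ s η a m k q :=
  div_nonneg (mul_nonneg (Aw_nonneg _ _ _ _ _) (W_nonneg _ _ _ _)) (Real.exp_pos _).le

theorem Gn_sum (η : Env) (a m k : ℕ) : ∑ q ∈ Pr a m, Gn μ s η a m k q = 1 := by
  unfold Gn
  rw [← Finset.sum_div, ← exp_slab, div_self (Real.exp_pos _).ne']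

theorem Gn_le_one (η : Env) (a m k : ℕ) {q : ℤ × ℤ} (hq : q ∈ Pr a m) : Gn μ s η a m k q ≤ 1 := by
  rw [← Gn_sum (μ := μ) (s := s) η a m k]
  exact Finset.single_le_sum (f := fun q => Gn μ s η a m k q) (fun q _ => Gn_nonneg η a m k q) hq

theorem measurable_Gn (a m k : ℕ) (q : ℤ × ℤ) : Measurable fun η : Env => Gn μ s η a m k q := by
  unfold Gn Aw
  have h1 : ∀ (b : Pt) (n : ℕ), Measurable fun η : Env => Real.exp (V μ s η b n) := fun b n => by
    have h2 : (fun η : Env => Real.exp (V μ s η b n)) = fun η : Env => WS μ s η b n (Finset.Icc (0 : ℤ) n) := by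
      funext η
      exact exp_V η b n
    rw [h2]
    exact measurable_WS b n _
  exact ((((measurable_W 0 a q.1).mul (h1 _ k)).mul (measurable_W _ m q.2)).div (h1 0 (a + m + k)))

/-- Outside the slab. -/
theorem Aw_congr {a m k : ℕ} {g h : Env} (hgh : ∀ p, p ∉ rows (a : ℤ) (a + m) → g p = h p) (q : ℤ × ℤ) :
    Aw μ s g a m k q = Aw μ s h a m k q := by
  unfold Aw
  have h1 : W μ s g 0 a q.1 = W μ s h 0 a q.1 := by
    refine W_dep (μ := μ) (s := s) 0 a q.1 fun p hp => hgh p fun hp2 => ?_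
    have h3 := hp.2.1
    have h4 := hp2.1
    simp only [Prod.fst_zero, zero_add] at h3
    omega
  have h2 : V μ s g ((a : ℤ) + m, q.1 + q.2) k = V μ s h ((a : ℤ) + m, q.1 + q.2) k := by
    refine V_dep_rows (μ := μ) (s := s) _ k fun p hp => hgh p fun hp2 => ?_
    have h3 := hp.1
    have h4 := hp2.2
    simp only at h3
    omega
  rw [h1, h2]

/-- The slab costs depend only on the slab. -/
theorem X_congr {a m : ℕ} {g h : Env} (hgh : ∀ p ∈ rows (a : ℤ) (a + m), g p = h p) (x y : ℤ) :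
    X μ s g ((a : ℤ), x) m y = X μ s h ((a : ℤ), x) m y := by
  refine X_dep (μ := μ) (s := s) _ m y fun p hp => hgh p ?_
  exact ⟨hp.1, hp.2.1⟩

/-- JENSEN: two environments which agree outside the slab. -/
theorem jen_pt {a m k : ℕ} {g h : Env} (hgh : ∀ p, p ∉ rows (a : ℤ) (a + m) → g p = h p) :
    V μ s g 0 (a + m + k) - V μ s h 0 (a + m + k) ≤
      ∑ q ∈ Pr a m, Gn μ s g a m k q * (X μ s h ((a : ℤ), q.1) m q.2 - X μ s g ((a : ℤ), q.1) m q.2) := by
  have hexp : Real.exp (V μ s h 0 (a + m + k) - V μ s g 0 (a + m + k)) =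
      ∑ q ∈ Pr a m, Gn μ s g a m k q *
        Real.exp (X μ s g ((a : ℤ), q.1) m q.2 - X μ s h ((a : ℤ), q.1) m q.2) := by
    rw [Real.exp_sub, exp_slab h a m k, Finset.sum_div]
    refine Finset.sum_congr rfl fun q hq => ?_
    obtain ⟨-, h0, h1⟩ := mem_Pr.1 hq
    have hg := W_pos (μ := μ) (s := s) g ((a : ℤ), q.1) h0 h1
    have hh := W_pos (μ := μ) (s := s) h ((a : ℤ), q.1) h0 h1
    have e1 : Real.exp (X μ s g ((a : ℤ), q.1) m q.2 - X μ s h ((a : ℤ), q.1) m q.2) =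
        W μ s h ((a : ℤ), q.1) m q.2 / W μ s g ((a : ℤ), q.1) m q.2 := by
      unfold X
      rw [sub_neg_eq_add, Real.exp_add, Real.exp_neg, Real.exp_log hg, Real.exp_log hh]
      ring
    rw [e1, Gn, Aw_congr hgh q]
    field_simp
  have hj := convexOn_exp.map_sum_le (t := Pr a m) (w := fun q => Gn μ s g a m k q)
    (p := fun q => X μ s g ((a : ℤ), q.1) m q.2 - X μ s h ((a : ℤ), q.1) m q.2)
    (fun q _ => Gn_nonneg g a m k q) (Gn_sum g a m k) (fun q _ => Set.mem_univ _)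
  simp only [smul_eq_mul] at hj
  rw [← hexp, Real.exp_le_exp] at hj
  have h2 : ∑ q ∈ Pr a m, Gn μ s g a m k q * (X μ s h ((a : ℤ), q.1) m q.2 - X μ s g ((a : ℤ), q.1) m q.2) =
      -∑ q ∈ Pr a m, Gn μ s g a m k q * (X μ s g ((a : ℤ), q.1) m q.2 - X μ s h ((a : ℤ), q.1) m q.2) := by
    rw [← Finset.sum_neg_distrib]
    exact Finset.sum_congr rfl fun q _ => by ring
  rw [h2]
  linarith

/-- JENSEN, squared. -/
theorem jen_sq {a m k : ℕ} {g h : Env} (hgh : ∀ p, p ∉ rows (a : ℤ) (a + m) → g p = h p) :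
    (max (V μ s g 0 (a + m + k) - V μ s h 0 (a + m + k)) 0) ^ 2 ≤
      ∑ q ∈ Pr a m, (2 * (Gn μ s g a m k q * (max (X μ s h ((a : ℤ), q.1) m q.2) 0) ^ 2) +
        2 * (Gn μ s g a m k q * (max (-X μ s g ((a : ℤ), q.1) m q.2) 0) ^ 2)) := by
  obtain ⟨b, hb⟩ : ∃ b : ℤ × ℤ → ℝ, b = fun q => max (X μ s h ((a : ℤ), q.1) m q.2) 0 +
    max (-X μ s g ((a : ℤ), q.1) m q.2) 0 := ⟨_, rfl⟩
  have hb0 : ∀ q, 0 ≤ b q := fun q => by
    rw [hb]
    exact add_nonneg (le_max_right _ _) (le_max_right _ _)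
  have h1 : max (V μ s g 0 (a + m + k) - V μ s h 0 (a + m + k)) 0 ≤ ∑ q ∈ Pr a m, Gn μ s g a m k q * b q := by
    refine max_le ((jen_pt hgh).trans (Finset.sum_le_sum fun q _ => ?_))
      (Finset.sum_nonneg fun q _ => mul_nonneg (Gn_nonneg _ _ _ _ _) (hb0 q))
    refine mul_le_mul_of_nonneg_left ?_ (Gn_nonneg _ _ _ _ _)
    rw [hb]
    have h2 := le_max_left (X μ s h ((a : ℤ), q.1) m q.2) 0
    have h3 := le_max_left (-X μ s g ((a : ℤ), q.1) m q.2) 0
    show _ ≤ max (X μ s h ((a : ℤ), q.1) m q.2) 0 + max (-X μ s g ((a : ℤ), q.1) m q.2) 0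
    linarith
  have h2 : (∑ q ∈ Pr a m, Gn μ s g a m k q * b q) ^ 2 ≤ ∑ q ∈ Pr a m, Gn μ s g a m k q * b q ^ 2 := by
    have h3 := (even_two.convexOn_pow (𝕜 := ℝ)).map_sum_le (t := Pr a m) (w := fun q => Gn μ s g a m k q)
      (p := b) (fun q _ => Gn_nonneg g a m k q) (Gn_sum g a m k) (fun q _ => Set.mem_univ _)
    simpa only [smul_eq_mul] using h3
  refine (pow_le_pow_left₀ (le_max_right _ _) h1 2).trans (h2.trans (Finset.sum_le_sum fun q _ => ?_))
  have h4 : b q ^ 2 ≤ 2 * (max (X μ s h ((a : ℤ), q.1) m q.2) 0) ^ 2 +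
      2 * (max (-X μ s g ((a : ℤ), q.1) m q.2) 0) ^ 2 := by
    rw [hb]
    show (max (X μ s h ((a : ℤ), q.1) m q.2) 0 + max (-X μ s g ((a : ℤ), q.1) m q.2) 0) ^ 2 ≤ _
    nlinarith [sq_nonneg (max (X μ s h ((a : ℤ), q.1) m q.2) 0 - max (-X μ s g ((a : ℤ), q.1) m q.2) 0)]
  calc Gn μ s g a m k q * b q ^ 2 ≤ Gn μ s g a m k q * (2 * (max (X μ s h ((a : ℤ), q.1) m q.2) 0) ^ 2 +
        2 * (max (-X μ s g ((a : ℤ), q.1) m q.2) 0) ^ 2) := mul_le_mul_of_nonneg_left h4 (Gn_nonneg _ _ _ _ _)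
    _ = _ := by ring

variable [IsProbabilityMeasure μ]

theorem hh_sh (a : Pt) (m : ℕ) (y : ℤ) : ∫ η, (max (X μ s η a m y) 0) ^ 2 ∂(law μ) = hh μ s m y := by
  have hm : Measurable fun η : Env => (max (X μ s η 0 m y) 0) ^ 2 :=
    (((Real.measurable_log.comp (measurable_W (μ := μ) (s := s) 0 m y)).neg).max measurable_const).pow_const 2
  have h := mp_sh (μ := μ) a
  have h2 : ∫ η, (max (X μ s (sh a η) 0 m y) 0) ^ 2 ∂(law μ) = ∫ η, (max (X μ s η 0 m y) 0) ^ 2 ∂(law μ) := by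
    rw [← integral_map (φ := sh a) (f := fun η : Env => (max (X μ s η 0 m y) 0) ^ 2) h.measurable.aemeasurable
      hm.aestronglyMeasurable, h.map_eq]
  have h3 : (fun η : Env => (max (X μ s (sh a η) 0 m y) 0) ^ 2) = fun η : Env => (max (X μ s η a m y) 0) ^ 2 := by
    funext η
    rw [X_sh, zero_add]
  rw [h3] at h2
  exact h2

omit [IsProbabilityMeasure μ] in
theorem hh_nonneg (m : ℕ) (y : ℤ) : 0 ≤ hh μ s m y := integral_nonneg fun _ => sq_nonneg _

/-- The luck at the place of the polymer, squared. -/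
def Lk (μ : Measure ℝ) (s : ℝ) (a m k : ℕ) : ℝ :=
  ∫ η, ∑ q ∈ Pr a m, Gn μ s η a m k q * (max (-X μ s η ((a : ℤ), q.1) m q.2) 0) ^ 2 ∂(law μ)

/-- The second moment of the cost of a fresh slab at the place of the polymer. -/
def St (μ : Measure ℝ) (s : ℝ) (a m k : ℕ) : ℝ :=
  ∫ η, ∑ q ∈ Pr a m, Gn μ s η a m k q * hh μ s m q.2 ∂(law μ)

omit [IsProbabilityMeasure μ] in
theorem integrable_Gn_mul {a m k : ℕ} {q : ℤ × ℤ} (hq : q ∈ Pr a m) {f : Env → ℝ}
    (hf : Integrable f (law μ)) : Integrable (fun η => Gn μ s η a m k q * f η) (law μ) := by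
  refine hf.bdd_mul (c := 1) (measurable_Gn a m k q).aestronglyMeasurable (Eventually.of_forall fun η => ?_)
  rw [Real.norm_eq_abs, abs_of_nonneg (Gn_nonneg _ _ _ _ _)]
  exact Gn_le_one η a m k hq

/-- THE JENSEN REDUCTION (ES0): the one sided difference under the resampling of the slab. -/
theorem jen_prod (hμ : Pool.Agent.W_7d29a1_h47.EM μ) (a m k : ℕ) :
    ∫ w, (max (V μ s w.1 0 (a + m + k) -
        V μ s (Pool.Agent.W_7d29a1_f21.splice (rows (a : ℤ) (a + m)) w.2 w.1) 0 (a + m + k)) 0) ^ 2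
        ∂((law μ).prod (law μ)) ≤ 2 * St μ s a m k + 2 * Lk μ s a m k := by
  obtain ⟨I, hI⟩ : ∃ I : Set Pt, I = rows (a : ℤ) (a + m) := ⟨_, rfl⟩
  rw [← hI]
  have hXi : ∀ q ∈ Pr a m, Sub fun η : Env => X μ s η ((a : ℤ), q.1) m q.2 := fun q hq =>
    Sub_X _ (mem_Pr.1 hq).2.1 (mem_Pr.1 hq).2.2
  have i1 : ∀ q ∈ Pr a m, Integrable (fun η : Env => (max (X μ s η ((a : ℤ), q.1) m q.2) 0) ^ 2) (law μ) :=
    fun q hq => ((hXi q hq).max (Sub.const 0)).sq_integrable hμ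
  have i2 : ∀ q ∈ Pr a m, Integrable (fun η : Env => (max (-X μ s η ((a : ℤ), q.1) m q.2) 0) ^ 2) (law μ) :=
    fun q hq => ((hXi q hq).neg.max (Sub.const 0)).sq_integrable hμ
  have i3 : ∀ q ∈ Pr a m, Integrable (fun η : Env => Gn μ s η a m k q) (law μ) := fun q hq => by
    have := integrable_Gn_mul (μ := μ) (s := s) (k := k) hq (integrable_const (1 : ℝ))
    simpa using this
  -- the two parts on the product
  have j1 : ∀ q ∈ Pr a m, Integrable (fun w : Env × Env => 2 * (Gn μ s w.1 a m k q *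
      (max (X μ s w.2 ((a : ℤ), q.1) m q.2) 0) ^ 2)) ((law μ).prod (law μ)) := fun q hq =>
    ((i3 q hq).mul_prod (i1 q hq)).const_mul 2
  have j2 : ∀ q ∈ Pr a m, Integrable (fun w : Env × Env => 2 * (Gn μ s w.1 a m k q *
      (max (-X μ s w.1 ((a : ℤ), q.1) m q.2) 0) ^ 2)) ((law μ).prod (law μ)) := fun q hq =>
    (((integrable_Gn_mul (μ := μ) (s := s) (k := k) hq (i2 q hq)).comp_fst (law μ))).const_mul 2
  have hle : ∀ w : Env × Env, (max (V μ s w.1 0 (a + m + k) -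
      V μ s (Pool.Agent.W_7d29a1_f21.splice I w.2 w.1) 0 (a + m + k)) 0) ^ 2 ≤
      ∑ q ∈ Pr a m, (2 * (Gn μ s w.1 a m k q * (max (X μ s w.2 ((a : ℤ), q.1) m q.2) 0) ^ 2) +
        2 * (Gn μ s w.1 a m k q * (max (-X μ s w.1 ((a : ℤ), q.1) m q.2) 0) ^ 2)) := by
    intro w
    have h1 := jen_sq (μ := μ) (s := s) (a := a) (m := m) (k := k) (g := w.1)
      (h := Pool.Agent.W_7d29a1_f21.splice I w.2 w.1) fun p hp => by
        rw [Pool.Agent.W_7d29a1_f21.splice_not_mem]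
        rw [hI]
        exact hp
    have h2 : ∀ q : ℤ × ℤ, X μ s (Pool.Agent.W_7d29a1_f21.splice I w.2 w.1) ((a : ℤ), q.1) m q.2 =
        X μ s w.2 ((a : ℤ), q.1) m q.2 := fun q => X_congr (fun p hp => by
      rw [Pool.Agent.W_7d29a1_f21.splice_mem]
      rw [hI]
      exact hp) _ _
    simp only [h2] at h1
    exact h1
  have hint : Integrable (fun w : Env × Env => ∑ q ∈ Pr a m,
      (2 * (Gn μ s w.1 a m k q * (max (X μ s w.2 ((a : ℤ), q.1) m q.2) 0) ^ 2) +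
        2 * (Gn μ s w.1 a m k q * (max (-X μ s w.1 ((a : ℤ), q.1) m q.2) 0) ^ 2))) ((law μ).prod (law μ)) :=
    integrable_finsetSum _ fun q hq => (j1 q hq).add (j2 q hq)
  refine (integral_mono_of_nonneg (Eventually.of_forall fun w => sq_nonneg _) hint
    (Eventually.of_forall hle)).trans (le_of_eq ?_)
  have j3 : ∀ q ∈ Pr a m, Integrable (fun w : Env × Env =>
      2 * (Gn μ s w.1 a m k q * (max (X μ s w.2 ((a : ℤ), q.1) m q.2) 0) ^ 2) +
        2 * (Gn μ s w.1 a m k q * (max (-X μ s w.1 ((a : ℤ), q.1) m q.2) 0) ^ 2)) ((law μ).prod (law μ)) :=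
    fun q hq => (j1 q hq).add (j2 q hq)
  rw [integral_finsetSum _ j3]
  have k1 : ∀ q ∈ Pr a m, ∫ w, (2 * (Gn μ s w.1 a m k q * (max (X μ s w.2 ((a : ℤ), q.1) m q.2) 0) ^ 2) +
        2 * (Gn μ s w.1 a m k q * (max (-X μ s w.1 ((a : ℤ), q.1) m q.2) 0) ^ 2)) ∂((law μ).prod (law μ)) =
      2 * (∫ η, Gn μ s η a m k q * hh μ s m q.2 ∂(law μ)) +
      2 * ∫ η, Gn μ s η a m k q * (max (-X μ s η ((a : ℤ), q.1) m q.2) 0) ^ 2 ∂(law μ) := by
    intro q hq
    rw [integral_add (j1 q hq) (j2 q hq), integral_const_mul, integral_const_mul]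
    congr 2
    · rw [integral_prod_mul (μ := law μ) (ν := law μ) (fun η => Gn μ s η a m k q)
        (fun η => (max (X μ s η ((a : ℤ), q.1) m q.2) 0) ^ 2), hh_sh, integral_mul_const]
    · rw [integral_fun_fst (μ := law μ) (ν := law μ)
        (fun η => Gn μ s η a m k q * (max (-X μ s η ((a : ℤ), q.1) m q.2) 0) ^ 2), probReal_univ, one_smul]
  rw [Finset.sum_congr rfl k1, Finset.sum_add_distrib, ← Finset.mul_sum, ← Finset.mul_sum]
  unfold St Lk
  rw [integral_finsetSum _ fun q hq => (i3 q hq).mul_const _,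
    integral_finsetSum _ fun q hq => integrable_Gn_mul (μ := μ) (s := s) (k := k) hq (i2 q hq)]

end

end Pool.Agent.W_7d29a1_X50
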