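import Pool.Agent.W_7d29a1_X50.Avg

/-!
STORM X (MP_7d29a1_pr), section (ES1), pure part: sums of independent non negative variables with the same stretched
exponential tail: beyond a multiple of the number of terms the tail is that of one term.
-/

namespace Pool.Agent.W_7d29a1_X50

open MeasureTheory ProbabilityTheory Filter Topology

theorem le_exp_rpow {b g : ℝ} (hb : 0 < b) (hg : 0 < g) : ∃ K : ℝ, 0 < K ∧ ∀ y : ℝ, 0 ≤ y → y ≤ K * Real.exp (b * y ^ g) := by
  obtain ⟨k, hk⟩ := exists_nat_ge (1 / g)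
  refine ⟨(1 / b) ^ (1 / g) * k.factorial, by positivity, fun y hy => ?_⟩
  obtain ⟨z, hz⟩ : ∃ z : ℝ, z = b * y ^ g := ⟨_, rfl⟩
  have hz0 : 0 ≤ z := by rw [hz]; positivity
  have hf1 : (1 : ℝ) ≤ k.factorial := by exact_mod_cast k.factorial_pos
  have hyz : y = (1 / b) ^ (1 / g) * z ^ (1 / g) := by
    rw [← Real.mul_rpow (by positivity) hz0, hz]
    have e1 : 1 / b * (b * y ^ g) = y ^ g := by field_simp
    rw [e1, ← Real.rpow_mul hy, mul_one_div_cancel hg.ne', Real.rpow_one]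
  have h1 : z ^ (1 / g) ≤ k.factorial * Real.exp z := by
    rcases le_total z 1 with h2 | h2
    · have h3 := Real.rpow_le_one hz0 h2 (by positivity : 0 ≤ 1 / g)
      have h4 : 1 ≤ Real.exp z := Real.one_le_exp hz0
      nlinarith
    · have h3 : z ^ (1 / g) ≤ z ^ (k : ℝ) := Real.rpow_le_rpow_of_exponent_le h2 hk
      rw [Real.rpow_natCast] at h3
      have h4 := Real.pow_div_factorial_le_exp z hz0 k
      rw [div_le_iff₀ (by positivity)] at h4
      linarith
  rw [← hz]
  calc y = (1 / b) ^ (1 / g) * z ^ (1 / g) := hyz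
    _ ≤ (1 / b) ^ (1 / g) * (k.factorial * Real.exp z) := mul_le_mul_of_nonneg_left h1 (by positivity)
    _ = _ := by ring

/-- Sums of independent variables. -/
theorem sum_tail {A a g : ℝ} (hA : 0 ≤ A) (ha : 0 < a) (hg : 0 < g) (hg1 : g ≤ 1) : ∃ C₁ A' : ℝ, 0 < C₁ ∧ 0 < A' ∧
    ∀ {Ω : Type} [MeasurableSpace Ω] {P : Measure Ω} [IsProbabilityMeasure P] (B : ℕ) (Y : ℕ → Ω → ℝ), 1 ≤ B →
    (∀ i < B, Measurable (Y i)) → (∀ i < B, ∀ ω, 0 ≤ Y i ω) →
    (∀ i < B, ∀ ε : ℝ, Integrable (fun ω => Real.exp (ε * Y i ω)) P) →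
    (∀ i < B, ∀ t : ℝ, 0 ≤ t → P.real {ω | t ≤ Y i ω} ≤ A * Real.exp (-(a * t ^ g))) →
    (∀ f : ℝ → ℝ, Measurable f → ∫ ω, ∏ i ∈ Finset.range B, f (Y i ω) ∂P = ∏ i ∈ Finset.range B, ∫ ω, f (Y i ω) ∂P) →
    ∀ u : ℝ, 0 ≤ u → P.real {ω | C₁ * (B + u) ≤ ∑ i ∈ Finset.range B, Y i ω} ≤ A' * Real.exp (-(a / 4 * u ^ g)) := by
  obtain ⟨b, hb⟩ : ∃ b : ℝ, b = a / 4 := ⟨_, rfl⟩
  have hb0 : 0 < b := by rw [hb]; positivity
  obtain ⟨K, hK, hKy⟩ := le_exp_rpow hb0 hg
  refine ⟨K * (1 + A) + 1, A * K + 1, by positivity, by positivity, ?_⟩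
  intro Ω _ P _ B Y hB hm h0 hi ht hind u hu
  have hBr : (1 : ℝ) ≤ B := by exact_mod_cast hB
  obtain ⟨s, hs⟩ : ∃ s : ℝ, s = B + u := ⟨_, rfl⟩
  have hs1 : 1 ≤ s := by rw [hs]; linarith
  have hs0 : 0 < s := by linarith
  have hus : u ≤ s := by rw [hs]; linarith
  have hBs : (B : ℝ) ≤ s := by rw [hs]; linarith
  obtain ⟨θ, hθ⟩ : ∃ θ : ℝ, θ = b * s ^ (g - 1) := ⟨_, rfl⟩
  have hθ0 : 0 < θ := by rw [hθ]; positivity
  have hθs : θ * s = b * s ^ g := by
    rw [hθ, mul_assoc]
    congr 1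
    have : s ^ g = s ^ (g - 1) * s ^ (1 : ℝ) := by
      rw [← Real.rpow_add hs0]
      congr 1
      ring
    rw [this, Real.rpow_one]
  rw [← hs, ← hb]
  -- pointwise bounds
  have hmin : ∀ y : ℝ, 0 ≤ y → θ * min y s ≤ b * y ^ g := by
    intro y hy
    rcases le_total y s with h1 | h1
    · rw [min_eq_left h1]
      rcases hy.eq_or_lt with h2 | h2
      · rw [← h2, mul_zero]
        positivity
      · have h3 : s ^ (g - 1) ≤ y ^ (g - 1) := Real.rpow_le_rpow_of_nonpos h2 h1 (by linarith)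
        have h4 : y ^ (g - 1) * y = y ^ g := by
          have : y ^ g = y ^ (g - 1) * y ^ (1 : ℝ) := by
            rw [← Real.rpow_add h2]
            congr 1
            ring
          rw [this, Real.rpow_one]
        calc θ * y = b * (s ^ (g - 1) * y) := by rw [hθ]; ring
          _ ≤ b * (y ^ (g - 1) * y) := mul_le_mul_of_nonneg_left (mul_le_mul_of_nonneg_right h3 hy) hb0.le
          _ = b * y ^ g := by rw [h4]
    · rw [min_eq_right h1, hθs]
      exact mul_le_mul_of_nonneg_left (Real.rpow_le_rpow hs0.le h1 hg.le) hb0.le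
  have hf : ∀ y : ℝ, 0 ≤ y → Real.exp (θ * min y s) ≤ 1 + θ * (K * Real.exp (a / 2 * y ^ g)) := by
    intro y hy
    have h1 : Real.exp (θ * min y s) ≤ 1 + θ * min y s * Real.exp (θ * min y s) := by
      have h2 := Real.add_one_le_exp (-(θ * min y s))
      have h3 := Real.exp_pos (θ * min y s)
      have h4 : Real.exp (-(θ * min y s)) * Real.exp (θ * min y s) = 1 := by
        rw [← Real.exp_add, neg_add_cancel, Real.exp_zero]
      nlinarith
    have hm0 : 0 ≤ min y s := le_min hy hs0.le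
    have h5 : θ * min y s * Real.exp (θ * min y s) ≤ θ * (y * Real.exp (b * y ^ g)) := by
      rw [mul_assoc]
      refine mul_le_mul_of_nonneg_left ?_ hθ0.le
      exact mul_le_mul (min_le_left _ _) (Real.exp_le_exp.2 (hmin y hy)) (Real.exp_pos _).le hy
    have h6 : y * Real.exp (b * y ^ g) ≤ K * Real.exp (a / 2 * y ^ g) := by
      calc y * Real.exp (b * y ^ g) ≤ (K * Real.exp (b * y ^ g)) * Real.exp (b * y ^ g) :=
            mul_le_mul_of_nonneg_right (hKy y hy) (Real.exp_pos _).le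
        _ = K * Real.exp (a / 2 * y ^ g) := by
            rw [mul_assoc, ← Real.exp_add]
            congr 2
            rw [hb]
            ring
    have h7 := mul_le_mul_of_nonneg_left h6 hθ0.le
    linarith
  -- integrability
  have hint : ∀ i < B, Integrable (fun ω => Real.exp (a / 2 * Y i ω ^ g)) P := by
    intro i hiB
    refine ((hi i hiB (a / 2)).const_mul (Real.exp (a / 2))).mono'
      (((hm i hiB).pow_const g).const_mul (a / 2)).exp.aestronglyMeasurable (Eventually.of_forall fun ω => ?_)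
    rw [Real.norm_eq_abs, Real.abs_exp, ← Real.exp_add, Real.exp_le_exp]
    have hy := h0 i hiB ω
    have h1 : Y i ω ^ g ≤ 1 + Y i ω := by
      rcases le_total (Y i ω) 1 with h2 | h2
      · have := Real.rpow_le_one hy h2 hg.le
        linarith
      · have h3 := Real.rpow_le_rpow_of_exponent_le h2 hg1
        rw [Real.rpow_one] at h3
        linarith
    have := mul_le_mul_of_nonneg_left h1 (by positivity : 0 ≤ a / 2)
    linarith
  have hmom : ∀ i < B, ∫ ω, Real.exp (a / 2 * Y i ω ^ g) ∂P ≤ 1 + A := fun i hiB =>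
    exp_of_tail (P := P) (hm i hiB) (h0 i hiB) hA ha hg (ht i hiB)
  have hfm : Measurable fun y : ℝ => Real.exp (θ * min y s) := by fun_prop
  have hEf : ∀ i < B, ∫ ω, Real.exp (θ * min (Y i ω) s) ∂P ≤ Real.exp (θ * (K * (1 + A))) := by
    intro i hiB
    have h1 : ∫ ω, Real.exp (θ * min (Y i ω) s) ∂P ≤ ∫ ω, (1 + θ * (K * Real.exp (a / 2 * Y i ω ^ g))) ∂P := by
      refine integral_mono_of_nonneg (Eventually.of_forall fun ω => (Real.exp_pos _).le)
        ((integrable_const 1).add (((hint i hiB).const_mul K).const_mul θ)) (Eventually.of_forall fun ω => hf _ (h0 i hiB ω))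
    have h2 : ∫ ω, (1 + θ * (K * Real.exp (a / 2 * Y i ω ^ g))) ∂P =
        1 + θ * (K * ∫ ω, Real.exp (a / 2 * Y i ω ^ g) ∂P) := by
      rw [integral_add (integrable_const 1) (((hint i hiB).const_mul K).const_mul θ), integral_const_mul,
        integral_const_mul, integral_const, probReal_univ, one_smul]
    have h3 : θ * (K * ∫ ω, Real.exp (a / 2 * Y i ω ^ g) ∂P) ≤ θ * (K * (1 + A)) :=
      mul_le_mul_of_nonneg_left (mul_le_mul_of_nonneg_left (hmom i hiB) hK.le) hθ0.le
    have h4 := Real.add_one_le_exp (θ * (K * (1 + A)))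
    linarith
  -- the product
  obtain ⟨F, hF⟩ : ∃ F : Ω → ℝ, F = fun ω => ∏ i ∈ Finset.range B, Real.exp (θ * min (Y i ω) s) := ⟨_, rfl⟩
  have hFe : ∀ ω, F ω = Real.exp (θ * ∑ i ∈ Finset.range B, min (Y i ω) s) := fun ω => by
    rw [hF, Finset.mul_sum, Real.exp_sum]
  have hFi : Integrable F P := by
    have hmeas : Measurable F := by
      rw [hF]
      exact Finset.measurable_prod _ fun i hi' => hfm.comp (hm i (Finset.mem_range.1 hi'))
    refine Integrable.of_bound hmeas.aestronglyMeasurable (Real.exp (θ * (B * s))) (Eventually.of_forall fun ω => ?_)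
    rw [hFe, Real.norm_eq_abs, Real.abs_exp, Real.exp_le_exp]
    refine mul_le_mul_of_nonneg_left ?_ hθ0.le
    calc ∑ i ∈ Finset.range B, min (Y i ω) s ≤ ∑ i ∈ Finset.range B, s := Finset.sum_le_sum fun i _ => min_le_right _ _
      _ = B * s := by rw [Finset.sum_const, Finset.card_range, nsmul_eq_mul]
  have hEF : ∫ ω, F ω ∂P ≤ Real.exp (θ * (K * (1 + A)) * B) := by
    rw [hF]
    have h1 := hind (fun y => Real.exp (θ * min y s)) hfm
    rw [h1]
    calc ∏ i ∈ Finset.range B, ∫ ω, Real.exp (θ * min (Y i ω) s) ∂P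
        ≤ ∏ i ∈ Finset.range B, Real.exp (θ * (K * (1 + A))) :=
          Finset.prod_le_prod (fun i _ => integral_nonneg fun ω => (Real.exp_pos _).le)
            fun i hi' => hEf i (Finset.mem_range.1 hi')
      _ = _ := by
          rw [Finset.prod_const, Finset.card_range, ← Real.exp_nat_mul]
          congr 1
          ring
  -- the event
  obtain ⟨C₁, hC₁⟩ : ∃ C₁ : ℝ, C₁ = K * (1 + A) + 1 := ⟨_, rfl⟩
  rw [← hC₁]
  have hsub : {ω | C₁ * s ≤ ∑ i ∈ Finset.range B, Y i ω} ⊆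
      (⋃ i ∈ Finset.range B, {ω | s ≤ Y i ω}) ∪ {ω | Real.exp (θ * (C₁ * s)) ≤ F ω} := by
    intro ω hω
    rw [Set.mem_ofPred_eq] at hω
    by_cases hex : ∃ i ∈ Finset.range B, s ≤ Y i ω
    · left
      obtain ⟨i, hi', h1⟩ := hex
      exact Set.mem_biUnion hi' h1
    · right
      push Not at hex
      rw [Set.mem_ofPred_eq, hFe, Real.exp_le_exp]
      refine mul_le_mul_of_nonneg_left (hω.trans (le_of_eq ?_)) hθ0.le
      exact Finset.sum_congr rfl fun i hi' => (min_eq_left (hex i hi').le).symm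
  have hP1 : P.real (⋃ i ∈ Finset.range B, {ω | s ≤ Y i ω}) ≤ A * K * Real.exp (-(b * u ^ g)) := by
    have hsg : 0 ≤ s ^ g := by positivity
    have hug : u ^ g ≤ s ^ g := Real.rpow_le_rpow hu hus hg.le
    calc P.real (⋃ i ∈ Finset.range B, {ω | s ≤ Y i ω}) ≤ ∑ i ∈ Finset.range B, P.real {ω | s ≤ Y i ω} :=
          measureReal_biUnion_finset_le _ _
      _ ≤ ∑ i ∈ Finset.range B, A * Real.exp (-(a * s ^ g)) :=
          Finset.sum_le_sum fun i hi' => ht i (Finset.mem_range.1 hi') s hs0.le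
      _ = B * (A * Real.exp (-(a * s ^ g))) := by rw [Finset.sum_const, Finset.card_range, nsmul_eq_mul]
      _ ≤ (K * Real.exp (b * s ^ g)) * (A * Real.exp (-(a * s ^ g))) :=
          mul_le_mul_of_nonneg_right (hBs.trans (hKy s hs0.le)) (by positivity)
      _ = A * K * Real.exp (b * s ^ g + -(a * s ^ g)) := by
          rw [Real.exp_add]
          ring
      _ ≤ A * K * Real.exp (-(b * u ^ g)) := by
          refine mul_le_mul_of_nonneg_left (Real.exp_le_exp.2 ?_) (by positivity)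
          have h1 := mul_le_mul_of_nonneg_left hug hb0.le
          have h2 : a * s ^ g = 4 * (b * s ^ g) := by rw [hb]; ring
          have h3 : 0 ≤ b * s ^ g := by positivity
          linarith
  have hP2 : P.real {ω | Real.exp (θ * (C₁ * s)) ≤ F ω} ≤ Real.exp (-(b * u ^ g)) := by
    have hF0 : ∀ ω, 0 ≤ F ω := fun ω => by
      rw [hFe]
      exact (Real.exp_pos _).le
    have hmk := mul_meas_ge_le_integral_of_nonneg (μ := P) (Eventually.of_forall hF0) hFi (Real.exp (θ * (C₁ * s)))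
    have h1 : P.real {ω | Real.exp (θ * (C₁ * s)) ≤ F ω} ≤
        Real.exp (θ * (K * (1 + A)) * B) / Real.exp (θ * (C₁ * s)) := by
      rw [le_div_iff₀ (Real.exp_pos _), mul_comm]
      exact hmk.trans hEF
    refine h1.trans ?_
    rw [← Real.exp_sub, Real.exp_le_exp]
    have h2 : θ * (K * (1 + A)) * B ≤ θ * (K * (1 + A)) * s := mul_le_mul_of_nonneg_left hBs (by positivity)
    have h3 : θ * (C₁ * s) = θ * (K * (1 + A)) * s + θ * s := by rw [hC₁]; ring
    have h4 : b * u ^ g ≤ b * s ^ g := mul_le_mul_of_nonneg_left (Real.rpow_le_rpow hu hus hg.le) hb0.le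
    linarith
  calc P.real {ω | C₁ * s ≤ ∑ i ∈ Finset.range B, Y i ω}
      ≤ P.real ((⋃ i ∈ Finset.range B, {ω | s ≤ Y i ω}) ∪ {ω | Real.exp (θ * (C₁ * s)) ≤ F ω}) :=
        measureReal_mono hsub (measure_ne_top _ _)
    _ ≤ P.real (⋃ i ∈ Finset.range B, {ω | s ≤ Y i ω}) + P.real {ω | Real.exp (θ * (C₁ * s)) ≤ F ω} :=
        measureReal_union_le _ _
    _ ≤ A * K * Real.exp (-(b * u ^ g)) + Real.exp (-(b * u ^ g)) := add_le_add hP1 hP2
    _ = (A * K + 1) * Real.exp (-(b * u ^ g)) := by ring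

end Pool.Agent.W_7d29a1_X50
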