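import Pool.Agent.W_7d29a1_SR.Mom

/-!
STORM X (MP_7d29a1_pr), section (ES1), pure part: stretched exponential tails pass to averages (no independence), with
the exponent and up to constants: Jensen for the convex function `exp (b (x + x₀) ^ g)`.
-/

namespace Pool.Agent.W_7d29a1_X50

open MeasureTheory ProbabilityTheory Filter Topology

/-- The function `exp (b (x + x₀) ^ g)` is convex on the half line if `x₀` is large. -/
theorem conv_psi {b g x₀ : ℝ} (hb : 0 < b) (hg : 0 < g) (hx₀ : 0 < x₀) (h : 1 - g ≤ b * g * x₀ ^ g) :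
    ConvexOn ℝ (Set.Ici 0) (fun x : ℝ => Real.exp (b * (x + x₀) ^ g)) := by
  have hder : ∀ x : ℝ, 0 ≤ x → HasDerivAt (fun x : ℝ => Real.exp (b * (x + x₀) ^ g))
      (Real.exp (b * (x + x₀) ^ g) * (b * (g * (x + x₀) ^ (g - 1)))) x := by
    intro x hx
    have h1 : HasDerivAt (fun x : ℝ => x + x₀) 1 x := (hasDerivAt_id x).add_const x₀
    have hne : x + x₀ ≠ 0 := (by linarith : 0 < x + x₀).ne'
    have h2 := h1.rpow_const (p := g) (Or.inl hne)
    have h3 := (h2.const_mul b).exp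
    convert h3 using 1
    ring
  refine MonotoneOn.convexOn_of_deriv (convex_Ici 0) (fun x hx => (hder x hx).continuousAt.continuousWithinAt)
    (fun x hx => ?_) ?_
  · rw [interior_Ici] at hx
    exact (hder x (le_of_lt hx)).differentiableAt.differentiableWithinAt
  · rw [interior_Ici]
    intro s hs t ht hst
    have hs0 : 0 < s := hs
    have ht0 : 0 < t := ht
    rw [(hder s hs0.le).deriv, (hder t ht0.le).deriv]
    have hS : 0 < s + x₀ := by linarith
    have hT : 0 < t + x₀ := by linarith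
    have e1 : ∀ r : ℝ, 0 < r → Real.exp (b * r ^ g) * (b * (g * r ^ (g - 1))) =
        b * g * Real.exp ((g - 1) * Real.log r + b * r ^ g) := by
      intro r hr
      rw [Real.exp_add, Real.rpow_def_of_pos hr (g - 1), mul_comm (Real.log r) (g - 1)]
      ring
    rw [e1 _ hS, e1 _ hT]
    refine mul_le_mul_of_nonneg_left (Real.exp_le_exp.2 ?_) (by positivity)
    have hL : 0 ≤ Real.log (t + x₀) - Real.log (s + x₀) := by
      have := Real.log_le_log hS (by linarith : s + x₀ ≤ t + x₀)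
      linarith
    have h5 : (s + x₀) ^ g * (1 + g * (Real.log (t + x₀) - Real.log (s + x₀))) ≤ (t + x₀) ^ g := by
      have h6 : (t + x₀) ^ g = (s + x₀) ^ g * Real.exp (g * (Real.log (t + x₀) - Real.log (s + x₀))) := by
        rw [Real.rpow_def_of_pos hT, Real.rpow_def_of_pos hS, ← Real.exp_add]
        congr 1
        ring
      rw [h6]
      refine mul_le_mul_of_nonneg_left ?_ (by positivity)
      have := Real.add_one_le_exp (g * (Real.log (t + x₀) - Real.log (s + x₀)))
      linarith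
    have h7 : x₀ ^ g ≤ (s + x₀) ^ g := Real.rpow_le_rpow hx₀.le (by linarith) hg.le
    have h8 : (1 - g) * (Real.log (t + x₀) - Real.log (s + x₀)) ≤
        b * g * (s + x₀) ^ g * (Real.log (t + x₀) - Real.log (s + x₀)) := by
      refine mul_le_mul_of_nonneg_right ?_ hL
      have h9 : b * g * x₀ ^ g ≤ b * g * (s + x₀) ^ g := mul_le_mul_of_nonneg_left h7 (by positivity)
      linarith
    have h10 := mul_le_mul_of_nonneg_left h5 hb.le
    nlinarith

/-- The exponential moment from a stretched exponential tail. -/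
theorem exp_of_tail {Ω : Type*} [MeasurableSpace Ω] {P : Measure Ω} [IsProbabilityMeasure P] {Y : Ω → ℝ}
    (hY : Measurable Y) (h0 : ∀ ω, 0 ≤ Y ω) {A a g : ℝ} (hA : 0 ≤ A) (ha : 0 < a) (hg : 0 < g)
    (ht : ∀ u : ℝ, 0 ≤ u → P.real {ω | u ≤ Y ω} ≤ A * Real.exp (-(a * u ^ g))) :
    ∫ ω, Real.exp (a / 2 * Y ω ^ g) ∂P ≤ 1 + A := by
  have h1 := Pool.Agent.W_7d29a1_SR.pow_moment_of_tail (P := P) (Y := fun ω => Real.exp (a / 2 * Y ω ^ g))
    (((hY.pow_const g).const_mul (a / 2)).exp) (fun ω => (Real.exp_pos _).le) 1 le_rfl hA (fun u hu => by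
      have hu0 : 0 < u := by linarith
      obtain ⟨t, ht'⟩ : ∃ t : ℝ, t = (Real.log u / (a / 2)) ^ (1 / g) := ⟨_, rfl⟩
      have hlog : 0 ≤ Real.log u := Real.log_nonneg hu
      have hq0 : 0 ≤ Real.log u / (a / 2) := by positivity
      have ht0 : 0 ≤ t := by
        rw [ht']
        positivity
      have htg : t ^ g = Real.log u / (a / 2) := by
        rw [ht', ← Real.rpow_mul hq0, one_div, inv_mul_cancel₀ hg.ne', Real.rpow_one]
      have h2 := ht t ht0
      have h3 : A * Real.exp (-(a * t ^ g)) = A / u ^ (1 + 1) := by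
        rw [htg]
        have e1 : -(a * (Real.log u / (a / 2))) = -(Real.log u + Real.log u) := by
          field_simp
          ring
        rw [e1, Real.exp_neg, Real.exp_add, Real.exp_log hu0]
        ring
      rw [h3] at h2
      refine le_trans (measureReal_mono (fun ω hω => ?_) (measure_ne_top _ _)) h2
      rw [Set.mem_ofPred_eq] at hω ⊢
      have h4 : Real.log u ≤ a / 2 * Y ω ^ g := (Real.log_le_iff_le_exp hu0).2 hω
      have h5 : t ^ g ≤ Y ω ^ g := by
        rw [htg, div_le_iff₀ (by positivity)]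
        linarith
      exact (Real.rpow_le_rpow_iff ht0 (h0 ω) hg).1 h5)
  simpa using h1

/-- Averages: no independence. -/
theorem avg_tail {A a g : ℝ} (hA : 0 ≤ A) (ha : 0 < a) (hg : 0 < g) (hg1 : g ≤ 1) : ∃ A' : ℝ, 0 < A' ∧
    ∀ {Ω : Type} [MeasurableSpace Ω] {P : Measure Ω} [IsProbabilityMeasure P] (B : ℕ) (Y : ℕ → Ω → ℝ), 1 ≤ B →
    (∀ i < B, Measurable (Y i)) → (∀ i < B, ∀ ω, 0 ≤ Y i ω) →
    (∀ i < B, ∀ ε : ℝ, Integrable (fun ω => Real.exp (ε * Y i ω)) P) →
    (∀ i < B, ∀ t : ℝ, 0 ≤ t → P.real {ω | t ≤ Y i ω} ≤ A * Real.exp (-(a * t ^ g))) →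
    ∀ u : ℝ, 0 ≤ u → P.real {ω | u * B ≤ ∑ i ∈ Finset.range B, Y i ω} ≤ A' * Real.exp (-(a / 2 * u ^ g)) := by
  obtain ⟨b, hb⟩ : ∃ b : ℝ, b = a / 2 := ⟨_, rfl⟩
  have hb0 : 0 < b := by rw [hb]; positivity
  obtain ⟨x₀, hx₀, hx₁⟩ : ∃ x₀ : ℝ, 0 < x₀ ∧ 1 - g ≤ b * g * x₀ ^ g := by
    refine ⟨(1 / (b * g)) ^ (1 / g), by positivity, ?_⟩
    rw [← Real.rpow_mul (by positivity), one_div_mul_cancel hg.ne', Real.rpow_one]
    have : b * g * (1 / (b * g)) = 1 := by field_simp
    rw [this]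
    linarith
  have hconv := conv_psi hb0 hg hx₀ hx₁
  refine ⟨Real.exp (b * x₀ ^ g) * (1 + A), by positivity, ?_⟩
  intro Ω _ P _ B Y hB hm h0 hi ht u hu
  have hBr : (0 : ℝ) < B := by exact_mod_cast hB
  -- the subadditivity of the power
  have hsub : ∀ x : ℝ, 0 ≤ x → (x + x₀) ^ g ≤ x ^ g + x₀ ^ g := fun x hx =>
    Real.rpow_add_le_add_rpow hx hx₀.le hg.le hg1
  have hpsi : ∀ x : ℝ, 0 ≤ x → Real.exp (b * (x + x₀) ^ g) ≤ Real.exp (b * x₀ ^ g) * Real.exp (b * x ^ g) := by
    intro x hx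
    rw [← Real.exp_add, Real.exp_le_exp]
    have := mul_le_mul_of_nonneg_left (hsub x hx) hb0.le
    linarith
  -- integrability of `exp (b Y ^ g)`
  have hint : ∀ i < B, Integrable (fun ω => Real.exp (b * Y i ω ^ g)) P := by
    intro i hiB
    refine ((hi i hiB b).const_mul (Real.exp b)).mono' (((hm i hiB).pow_const g).const_mul b).exp.aestronglyMeasurable
      (Eventually.of_forall fun ω => ?_)
    rw [Real.norm_eq_abs, Real.abs_exp, ← Real.exp_add, Real.exp_le_exp]
    have hy := h0 i hiB ω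
    have h1 : Y i ω ^ g ≤ 1 + Y i ω := by
      rcases le_total (Y i ω) 1 with h2 | h2
      · have := Real.rpow_le_one hy h2 hg.le
        linarith
      · have h3 := Real.rpow_le_rpow_of_exponent_le h2 hg1
        rw [Real.rpow_one] at h3
        linarith
    have := mul_le_mul_of_nonneg_left h1 hb0.le
    linarith
  have hmom : ∀ i < B, ∫ ω, Real.exp (b * Y i ω ^ g) ∂P ≤ 1 + A := fun i hiB => by
    have := exp_of_tail (P := P) (hm i hiB) (h0 i hiB) hA ha hg (ht i hiB)
    rw [hb]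
    exact this
  -- Jensen
  have hjen : ∀ ω, Real.exp (b * ((∑ i ∈ Finset.range B, Y i ω) / B + x₀) ^ g) ≤
      ∑ i ∈ Finset.range B, 1 / (B : ℝ) * (Real.exp (b * x₀ ^ g) * Real.exp (b * Y i ω ^ g)) := by
    intro ω
    have h1 := hconv.map_sum_le (t := Finset.range B) (w := fun _ => 1 / (B : ℝ)) (p := fun i => Y i ω)
      (fun i _ => by positivity) (by
        rw [Finset.sum_const, Finset.card_range, nsmul_eq_mul]
        field_simp) (fun i hi' => h0 i (Finset.mem_range.1 hi') ω)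
    simp only [smul_eq_mul] at h1
    have h2 : ∑ i ∈ Finset.range B, 1 / (B : ℝ) * Y i ω = (∑ i ∈ Finset.range B, Y i ω) / B := by
      rw [← Finset.mul_sum]
      ring
    rw [h2] at h1
    refine h1.trans (Finset.sum_le_sum fun i hi' => ?_)
    exact mul_le_mul_of_nonneg_left (hpsi _ (h0 i (Finset.mem_range.1 hi') ω)) (by positivity)
  have hint2 : Integrable (fun ω => ∑ i ∈ Finset.range B, 1 / (B : ℝ) *
      (Real.exp (b * x₀ ^ g) * Real.exp (b * Y i ω ^ g))) P :=
    integrable_finsetSum _ fun i hi' => ((hint i (Finset.mem_range.1 hi')).const_mul _).const_mul _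
  have hval : ∫ ω, ∑ i ∈ Finset.range B, 1 / (B : ℝ) * (Real.exp (b * x₀ ^ g) * Real.exp (b * Y i ω ^ g)) ∂P ≤
      Real.exp (b * x₀ ^ g) * (1 + A) := by
    rw [integral_finsetSum _ fun i hi' => ((hint i (Finset.mem_range.1 hi')).const_mul _).const_mul _]
    calc ∑ i ∈ Finset.range B, ∫ ω, 1 / (B : ℝ) * (Real.exp (b * x₀ ^ g) * Real.exp (b * Y i ω ^ g)) ∂P
        ≤ ∑ i ∈ Finset.range B, 1 / (B : ℝ) * (Real.exp (b * x₀ ^ g) * (1 + A)) := by
          refine Finset.sum_le_sum fun i hi' => ?_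
          rw [integral_const_mul, integral_const_mul]
          exact mul_le_mul_of_nonneg_left (mul_le_mul_of_nonneg_left (hmom i (Finset.mem_range.1 hi'))
            (Real.exp_pos _).le) (by positivity)
      _ = Real.exp (b * x₀ ^ g) * (1 + A) := by
          rw [Finset.sum_const, Finset.card_range, nsmul_eq_mul]
          field_simp
  -- Markov
  obtain ⟨F, hF⟩ : ∃ F : Ω → ℝ, F = fun ω => ∑ i ∈ Finset.range B, 1 / (B : ℝ) *
      (Real.exp (b * x₀ ^ g) * Real.exp (b * Y i ω ^ g)) := ⟨_, rfl⟩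
  have hF0 : ∀ ω, 0 ≤ F ω := fun ω => by
    rw [hF]
    exact Finset.sum_nonneg fun i _ => by positivity
  have hmk := mul_meas_ge_le_integral_of_nonneg (μ := P) (Eventually.of_forall hF0) (by rw [hF]; exact hint2)
    (Real.exp (b * u ^ g))
  have hsubset : P.real {ω | u * B ≤ ∑ i ∈ Finset.range B, Y i ω} ≤ P.real {ω | Real.exp (b * u ^ g) ≤ F ω} := by
    refine measureReal_mono (fun ω hω => ?_) (measure_ne_top _ _)
    rw [Set.mem_ofPred_eq] at hω ⊢
    rw [hF]
    refine le_trans (Real.exp_le_exp.2 ?_) (hjen ω)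
    refine mul_le_mul_of_nonneg_left (Real.rpow_le_rpow hu ?_ hg.le) hb0.le
    have h1 : u ≤ (∑ i ∈ Finset.range B, Y i ω) / B := by
      rw [le_div_iff₀ hBr]
      exact hω
    linarith
  rw [← hb]
  refine hsubset.trans ?_
  rw [Real.exp_neg, ← div_eq_mul_inv, le_div_iff₀ (Real.exp_pos _), mul_comm]
  refine hmk.trans ?_
  rw [hF]
  exact hval

end Pool.Agent.W_7d29a1_X50
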