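import Pool.Agent.W_7d29a1_X50.Jen
import Pool.Agent.W_7d29a1_SR.Rec

/-!
STORM X (MP_7d29a1_pr), section (ES1), structural part: a displacement `(m, y)` of any slope is cut in `B` pieces at the
natural scale of the slope, each piece in the cone `c / 16` of `unlucky_exp`, with `B EE (m / B + 1) ≤ A (EE m + m J)`.
-/

namespace Pool.Agent.W_7d29a1_X50

open MeasureTheory ProbabilityTheory Filter Topology
open Pool.Agent.W_7d29a1_F Pool.Agent.W_7d29a1_h4g Pool.Agent.W_7d29a1_G Pool.Agent.W_7d29a1_SR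

/-- (D2): doubling of the rate function at `0`. -/
def Dj (μ : Measure ℝ) : Prop := ∃ K v0 : ℝ, 0 < v0 ∧ ∀ v, 0 ≤ v → v ≤ v0 → J μ (2 * v) ≤ K * J μ v

variable {μ : Measure ℝ} [IsProbabilityMeasure μ] {c C : ℝ} {n₀ : ℕ}

theorem J_ratio (hμ : Pool.Agent.W_7d29a1_h47.EM μ) (hnd : Pool.Agent.W_7d29a1_h47.Nondeg μ) (hD : Dj μ) {R : ℝ}
    (hR : 1 ≤ R) : ∃ K : ℝ, 0 < K ∧ ∀ u, 0 ≤ u → R * u ≤ 1 / 2 → J μ (R * u) ≤ K * J μ u := by
  obtain ⟨K₀, v₀, hv₀, hd⟩ := hD
  obtain ⟨K, hK1, hKK⟩ : ∃ K : ℝ, 1 ≤ K ∧ K₀ ≤ K := ⟨max 1 K₀, le_max_left _ _, le_max_right _ _⟩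
  obtain ⟨v1, hv1, hv1a, hv1b⟩ : ∃ v1 : ℝ, 0 < v1 ∧ v1 ≤ v₀ ∧ v1 ≤ 1 / 2 :=
    ⟨min v₀ (1 / 2), lt_min hv₀ (by norm_num), min_le_left _ _, min_le_right _ _⟩
  obtain ⟨k, hk⟩ := pow_unbounded_of_one_lt R one_lt_two
  have hit : ∀ k : ℕ, ∀ u : ℝ, 0 ≤ u → 2 ^ k * u ≤ v1 → J μ (2 ^ k * u) ≤ K ^ k * J μ u := by
    intro k
    induction k with
    | zero =>
      intro u _ _
      simp
    | succ k ih =>
      intro u hu hku
      have e1 : (2 : ℝ) ^ (k + 1) * u = 2 * (2 ^ k * u) := by ring
      have h0 : 0 ≤ (2 : ℝ) ^ k * u := by positivity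
      rw [e1] at hku ⊢
      have h1 := hd (2 ^ k * u) h0 (by linarith)
      have h2 := ih u hu (by linarith)
      have h3 : 0 ≤ J μ (2 ^ k * u) := J_nonneg hμ (by rw [abs_of_nonneg h0]; linarith)
      calc J μ (2 * (2 ^ k * u)) ≤ K₀ * J μ (2 ^ k * u) := h1
        _ ≤ K * J μ (2 ^ k * u) := mul_le_mul_of_nonneg_right hKK h3
        _ ≤ K * (K ^ k * J μ u) := mul_le_mul_of_nonneg_left h2 (by linarith)
        _ = K ^ (k + 1) * J μ u := by ring
  obtain ⟨u1, hu1⟩ : ∃ u1 : ℝ, u1 = v1 / 2 ^ k := ⟨_, rfl⟩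
  have hu10 : 0 < u1 := by rw [hu1]; positivity
  have hu1h : u1 ≤ 1 / 2 := by
    rw [hu1]
    exact (div_le_self hv1.le (one_le_pow₀ (by norm_num))).trans hv1b
  have hJ1 := J_pos hμ hnd hu10 hu1h
  have hJh : 0 ≤ J μ (1 / 2) := J_nonneg hμ (by rw [abs_of_nonneg (by norm_num)])
  refine ⟨K ^ k + J μ (1 / 2) / J μ u1, by positivity, fun u hu hRu => ?_⟩
  have hRu0 : 0 ≤ R * u := by positivity
  have huh : u ≤ 1 / 2 := by nlinarith
  have hJu : 0 ≤ J μ u := J_nonneg hμ (by rw [abs_of_nonneg hu]; exact huh)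
  rcases le_or_gt (2 ^ k * u) v1 with h1 | h1
  · have h2 := J_mono' hμ hRu0 (mul_le_mul_of_nonneg_right hk.le hu) (h1.trans hv1b)
    have h3 := hit k u hu h1
    have h4 : 0 ≤ J μ (1 / 2) / J μ u1 * J μ u := by positivity
    linarith
  · have h2 : u1 ≤ u := by
      rw [hu1, div_le_iff₀ (by positivity)]
      linarith
    have h3 := J_mono' hμ hu10.le h2 huh
    have h4 := J_mono' hμ hRu0 hRu le_rfl
    have h5 : J μ (1 / 2) ≤ J μ (1 / 2) / J μ u1 * J μ u := by
      rw [div_mul_eq_mul_div, le_div_iff₀ hJ1]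
      exact mul_le_mul_of_nonneg_left h3 hJh
    have h6 : 0 ≤ K ^ k * J μ u := by positivity
    linarith

/-- The number of pieces. -/
theorem exists_B (h : In μ c C n₀) (hD : Dj μ) : ∃ A : ℝ, 0 < A ∧ ∀ m : ℕ, 1 ≤ m → ∀ u : ℝ, 0 ≤ u → u ≤ 1 / 2 →
    ∃ B : ℕ, 1 ≤ B ∧ B ≤ m ∧ B * EE μ (m / B + 1) ≤ A * (EE μ m + m * J μ u) ∧
      ∀ l : ℕ, 1 ≤ l → l * B < m + B → m < (l + 1) * B → l = 1 ∨ u ≤ c / 16 * vA μ 1 l := by
  classical
  have hc0 := h.c0
  have hc1 := h.c1
  have hR : 1 ≤ 32 / c := by
    rw [le_div_iff₀ hc0]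
    linarith
  obtain ⟨K, hK, hJR⟩ := J_ratio h.em h.nd hD hR
  have hJc : 0 < J μ (c / 64) := J_pos h.em h.nd (by positivity) (by linarith)
  obtain ⟨u2, hu2⟩ : ∃ u2 : ℝ, u2 = c / 32 * vA μ 1 1 := ⟨_, rfl⟩
  have hv1 := vA_pos (A := 1) h.em one_pos 1
  have hv1' := vA_le (A := 1) h.em zero_le_one 1
  have hu20 : 0 < u2 := by rw [hu2]; positivity
  have hu2h : u2 ≤ 1 / 2 := by
    rw [hu2]
    nlinarith
  have hJ2 : 0 < J μ u2 := J_pos h.em h.nd hu20 hu2h
  have hE1 := EE_pos (μ := μ) 1
  have hE2 := EE_pos (μ := μ) 2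
  refine ⟨2 + 8 * K + 4 * EE μ 1 / J μ (c / 64) + EE μ 2 / J μ u2, by positivity, fun m hm u hu huh => ?_⟩
  obtain ⟨A, hA⟩ : ∃ A : ℝ, A = 2 + 8 * K + 4 * EE μ 1 / J μ (c / 64) + EE μ 2 / J μ u2 := ⟨_, rfl⟩
  rw [← hA]
  have hJu : 0 ≤ J μ u := J_nonneg h.em (by rw [abs_of_nonneg hu]; exact huh)
  have hEm := EE_pos (μ := μ) m
  have hmr : (1 : ℝ) ≤ m := by exact_mod_cast hm
  have hq1 : 0 < 4 * EE μ 1 / J μ (c / 64) := by positivity
  have hq2 : 0 < EE μ 2 / J μ u2 := by positivity
  have hmJ : 0 ≤ m * J μ u := by positivity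
  by_cases hcase : u ≤ c / 32 * vA μ 1 m
  · -- one piece
    refine ⟨1, le_rfl, hm, ?_, fun l _ h1 h2 => Or.inr ?_⟩
    · have h1 : EE μ (m / 1 + 1) ≤ EE μ (2 * m) := EE_mono (by omega)
      have h2 := EE_two (μ := μ) h.em m
      have h3 : 2 * EE μ m ≤ A * (EE μ m + m * J μ u) := by
        have : 2 * EE μ m ≤ A * EE μ m := mul_le_mul_of_nonneg_right (by rw [hA]; linarith) hEm.le
        have : 0 ≤ A * (m * J μ u) := mul_nonneg (by rw [hA]; positivity) hmJ
        linarith
      push_cast
      linarith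
    · have : l = m := by omega
      subst this
      have := vA_nonneg (A := 1) h.em zero_le_one l
      nlinarith
  · rw [not_le] at hcase
    by_cases hex : ∃ n, 1 ≤ n ∧ n ≤ m ∧ u ≤ c / 32 * vA μ 1 n
    · obtain ⟨n, hn1, hnm, hnu⟩ := hex
      obtain ⟨n', hn'⟩ : ∃ n', n' = Nat.findGreatest (fun n => 1 ≤ n ∧ u ≤ c / 32 * vA μ 1 n) m := ⟨_, rfl⟩
      have hsp : 1 ≤ n' ∧ u ≤ c / 32 * vA μ 1 n' := by
        rw [hn']
        exact Nat.findGreatest_spec (P := fun n => 1 ≤ n ∧ u ≤ c / 32 * vA μ 1 n) hnm ⟨hn1, hnu⟩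
      have hle : n' ≤ m := by
        rw [hn']
        exact Nat.findGreatest_le m
      have hlt : n' < m := by
        rcases hle.eq_or_lt with h1 | h1
        · exfalso
          rw [h1] at hsp
          linarith [hsp.2]
        · exact h1
      have hgr : c / 32 * vA μ 1 (n' + 1) < u := by
        have h1 := Nat.findGreatest_is_greatest (P := fun n => 1 ≤ n ∧ u ≤ c / 32 * vA μ 1 n) (n := m) (k := n' + 1)
          (by rw [← hn']; omega) (by omega)
        by_contra hcon
        rw [not_lt] at hcon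
        exact h1 ⟨by omega, hcon⟩
      obtain ⟨B, hB⟩ : ∃ B, B = (m - 1) / n' + 1 := ⟨_, rfl⟩
      have hn'0 : 0 < n' := hsp.1
      have hd1 : (m - 1) / n' * n' ≤ m - 1 := Nat.div_mul_le_self _ _
      have hd2 : m - 1 < ((m - 1) / n' + 1) * n' := by
        have := Nat.lt_mul_div_succ (m - 1) hn'0
        rwa [mul_comm] at this
      have hB1 : 1 ≤ B := by
        rw [hB]
        exact Nat.le_add_left 1 _
      have hBn : B * n' + 1 ≤ m + n' := by
        rw [hB]
        have : ((m - 1) / n' + 1) * n' = (m - 1) / n' * n' + n' := by ring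
        omega
      have hmB : m ≤ B * n' := by
        rw [hB]
        omega
      have hBm : B ≤ m := by
        by_contra hcon
        rw [not_le] at hcon
        have h1 : (m + 1) * n' ≤ B * n' := Nat.mul_le_mul_right n' hcon
        have h2 : (m + 1) * n' = m * n' + n' := by ring
        have h3 : m * 1 ≤ m * n' := Nat.mul_le_mul_left m hn'0
        omega
      have hB2 : 2 ≤ B := by
        by_contra hcon
        have : B = 1 := by omega
        rw [this] at hmB
        omega
      have hn'r : (0 : ℝ) < n' := by exact_mod_cast hn'0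
      have hEn := EE_pos (μ := μ) n'
      -- the bound of `B`
      have hmain : B * EE μ (m / B + 1) * n' ≤ 4 * m * EE μ n' := by
        have h1 : EE μ (m / B + 1) ≤ 2 * EE μ n' := by
          have h2 : m / B ≤ n' := by
            have : m / B ≤ B * n' / B := Nat.div_le_div_right hmB
            rw [Nat.mul_div_cancel_left _ (by omega : 0 < B)] at this
            exact this
          exact (EE_mono (by omega : m / B + 1 ≤ 2 * n')).trans (EE_two h.em n')
        have h2 : (B : ℝ) * n' ≤ 2 * m := by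
          have : B * n' ≤ 2 * m := by omega
          exact_mod_cast this
        calc B * EE μ (m / B + 1) * n' = (B * n') * EE μ (m / B + 1) := by ring
          _ ≤ (2 * m) * (2 * EE μ n') := mul_le_mul h2 h1 (EE_pos _).le (by positivity)
          _ = 4 * m * EE μ n' := by ring
      refine ⟨B, hB1, hBm, ?_, fun l hl1 hl2 hl3 => Or.inr ?_⟩
      · rcases le_or_gt (32 / c * u) (1 / 2) with hv | hv
        · have h1 : EE μ (n' + 1) < (n' + 1) * J μ (32 / c * u) := by
            by_contra hcon
            rw [not_lt] at hcon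
            have h2 := le_vA (μ := μ) (A := 1) (n := n' + 1) (v := 32 / c * u) (by positivity) hv (by
              push_cast
              rw [one_mul]
              exact hcon)
            have h3 : u ≤ c / 32 * vA μ 1 (n' + 1) := by
              have := mul_le_mul_of_nonneg_left h2 (by positivity : (0 : ℝ) ≤ c / 32)
              have e1 : c / 32 * (32 / c * u) = u := by field_simp
              rw [e1] at this
              exact this
            linarith
          have h2 := hJR u hu hv
          have hJv : 0 ≤ J μ (32 / c * u) := J_nonneg h.em (by rw [abs_of_nonneg (by positivity)]; exact hv)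
          have h3 : EE μ n' ≤ 2 * n' * (K * J μ u) := by
            have h4 : EE μ n' ≤ EE μ (n' + 1) := EE_mono (by omega)
            have h5 : ((n' : ℝ) + 1) * J μ (32 / c * u) ≤ (2 * n') * (K * J μ u) := by
              refine mul_le_mul ?_ h2 hJv (by positivity)
              have : (1 : ℝ) ≤ n' := by exact_mod_cast hn'0
              linarith
            linarith
          have h6 : B * EE μ (m / B + 1) * n' ≤ (8 * K * (m * J μ u)) * n' := by
            refine hmain.trans ?_
            calc 4 * m * EE μ n' ≤ 4 * m * (2 * n' * (K * J μ u)) := mul_le_mul_of_nonneg_left h3 (by positivity)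
              _ = _ := by ring
          have h7 := le_of_mul_le_mul_right h6 hn'r
          have h8 : 8 * K * (m * J μ u) ≤ A * (m * J μ u) := mul_le_mul_of_nonneg_right (by rw [hA]; linarith) hmJ
          have h9 : 0 ≤ A * EE μ m := mul_nonneg (by rw [hA]; positivity) hEm.le
          linarith
        · have h1 : c / 64 ≤ u := by
            have h2 : 1 / 2 * (c / 32) < 32 / c * u * (c / 32) := mul_lt_mul_of_pos_right hv (by positivity)
            have e1 : 32 / c * u * (c / 32) = u := by field_simp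
            rw [e1] at h2
            linarith
          have h2 := J_mono' h.em (by positivity : (0 : ℝ) ≤ c / 64) h1 huh
          have h3 : EE μ n' ≤ n' * EE μ 1 := by
            have := EE_mul (μ := μ) h.em n' 1 hn'0
            rwa [mul_one] at this
          have h4 : B * EE μ (m / B + 1) * n' ≤ (4 * m * EE μ 1) * n' := by
            refine hmain.trans ?_
            calc 4 * m * EE μ n' ≤ 4 * m * (n' * EE μ 1) := mul_le_mul_of_nonneg_left h3 (by positivity)
              _ = _ := by ring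
          have h5 := le_of_mul_le_mul_right h4 hn'r
          have h6 : 4 * m * EE μ 1 ≤ 4 * EE μ 1 / J μ (c / 64) * (m * J μ u) := by
            rw [div_mul_eq_mul_div, le_div_iff₀ hJc]
            have := mul_le_mul_of_nonneg_left h2 (by positivity : (0 : ℝ) ≤ 4 * m * EE μ 1)
            linarith
          have h7 : 4 * EE μ 1 / J μ (c / 64) * (m * J μ u) ≤ A * (m * J μ u) :=
            mul_le_mul_of_nonneg_right (by rw [hA]; linarith) hmJ
          have h9 : 0 ≤ A * EE μ m := mul_nonneg (by rw [hA]; positivity) hEm.le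
          linarith
      · -- the cone at the scale `l`
        have hln : l ≤ n' := by
          by_contra hcon
          rw [not_le] at hcon
          have h1 : (n' + 1) * B ≤ l * B := Nat.mul_le_mul_right B hcon
          have h2 : (n' + 1) * B = B * n' + B := by ring
          omega
        have hnl : n' ≤ 2 * l := by
          by_contra hcon
          rw [not_le] at hcon
          obtain ⟨d, hd⟩ : ∃ d, n' = l + 1 + d := ⟨n' - (l + 1), by omega⟩
          have h1 : B * n' = (l + 1) * B + d * B := by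
            rw [hd]
            ring
          have h2 : d * 2 ≤ d * B := Nat.mul_le_mul_left d hB2
          omega
        have hlr : (0 : ℝ) < l := by exact_mod_cast hl1
        have h1 : vA μ 1 n' / 2 ≤ vA μ 1 l := by
          have hv0 := vA_nonneg (A := 1) h.em zero_le_one n'
          have hvh := vA_le (A := 1) h.em zero_le_one n'
          refine le_vA (by positivity) (by linarith) ?_
          have h2 := J_mul (μ := μ) h.em (v := vA μ 1 n' / 2) (t := 2) (by positivity) (by norm_num) (by linarith)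
          have e1 : 2 * (vA μ 1 n' / 2) = vA μ 1 n' := by ring
          rw [e1] at h2
          have h3 := vA_mem (A := 1) h.em zero_le_one n'
          rw [one_mul] at h3 ⊢
          have h4 : EE μ n' ≤ 2 * EE μ l := (EE_mono hnl).trans (EE_two h.em l)
          have h5 : (l : ℝ) ≤ n' := by exact_mod_cast hln
          have hJ0 : 0 ≤ J μ (vA μ 1 n') := J_nonneg h.em (by rw [abs_of_nonneg hv0]; exact hvh)
          have h6 : (l : ℝ) * (2 * J μ (vA μ 1 n' / 2)) ≤ n' * J μ (vA μ 1 n') := mul_le_mul h5 h2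
            (by have := J_nonneg (μ := μ) h.em (v := vA μ 1 n' / 2) (by rw [abs_of_nonneg (by positivity)]; linarith)
                positivity) (by positivity)
          linarith
        have h2 := hsp.2
        have h3 := mul_le_mul_of_nonneg_left h1 (by positivity : (0 : ℝ) ≤ c / 16)
        linarith
    · -- single steps
      push Not at hex
      have h1 := hex 1 le_rfl hm
      refine ⟨m, hm, le_rfl, ?_, fun l hl1 hl2 _ => Or.inl ?_⟩
      · have e1 : m / m + 1 = 2 := by rw [Nat.div_self (by omega)]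
        rw [e1]
        rw [← hu2] at h1
        have h2 := J_mono' h.em hu20.le h1.le huh
        have h3 : m * EE μ 2 ≤ EE μ 2 / J μ u2 * (m * J μ u) := by
          rw [div_mul_eq_mul_div, le_div_iff₀ hJ2]
          have := mul_le_mul_of_nonneg_left h2 (by positivity : (0 : ℝ) ≤ m * EE μ 2)
          linarith
        have h7 : EE μ 2 / J μ u2 * (m * J μ u) ≤ A * (m * J μ u) :=
          mul_le_mul_of_nonneg_right (by rw [hA]; linarith) hmJ
        have h9 : 0 ≤ A * EE μ m := mul_nonneg (by rw [hA]; positivity) hEm.le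
        linarith
      · by_contra hcon
        have : 2 ≤ l := by omega
        have : 2 * m ≤ l * m := Nat.mul_le_mul_right m this
        omega

end Pool.Agent.W_7d29a1_X50
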